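import Pool.Agent.X209.Gss.Final

/-!
# Guessing models `M` which are not `γ`-guessing for any `γ ≤ |M|`

Let `μ₀ < μ₁ < ⋯` be cardinals such that `μ₀` is supercompact and the other `μ_n` are strongly
compact, let `ν` be their supremum, and let `θ > ν⁺` be regular. Then there is a `ν⁺`-guessing
`M ≺ H(θ)` of size `ν` with `κ_M = ν⁺` which is not `γ`-guessing for any `γ ≤ ν`.

The construction of `M` is described in the file of the result of MP_f5d68c_lc. It is not
`γ`-guessing for `γ ≤ ν`: as `ν` is a strong limit and `ν ⊆ M`, all subsets of each `a ∈ M` with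
`|a| < ν` belong to `M`, and hence all subsets of `κ_M` are `γ`-approximated in `M`; but there are
`2^ν > |M|` sets `d ⊆ ν ⊆ κ_M ∩ M`, which cannot all be guessed.
-/

namespace Pool.Agent.Results.MP_e276f9_lc.GuessingOnlyAtSucc

open Cardinal Pool.Agent.X209.Gss

universe u

/-- If `μ 0 < μ 1 < ⋯`, where `μ 0` is supercompact and the other `μ n` are strongly compact, and
`ν` is their supremum, then `ν⁺` is regular and for each regular `θ > ν⁺` there is `M ≺ H(θ)` of
size `ν` with `κ_M = ν⁺` which is `ν⁺`-guessing, but not `γ`-guessing for any cardinal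
`γ ≤ ν = |M|`. -/
theorem result (μ : ℕ → Cardinal.{u}) (hμ : StrictMono μ) (h0 : Supercompact (μ 0))
    (hsc : ∀ n, StronglyCompact (μ (n + 1))) :
    (Order.succ (⨆ n, μ n)).IsRegular ∧
    ∀ θ : Cardinal.{u}, θ.IsRegular → Order.succ (⨆ n, μ n) < θ →
      ∃ M : ZFSet.{u}, ElemSubH θ M ∧ M.card = ⨆ n, μ n ∧
        IsKappa M (Order.succ (⨆ n, μ n)).ord ∧ Guessing (Order.succ (⨆ n, μ n)) M ∧
        ∀ γ : Cardinal.{u}, γ ≤ M.card → ¬ Guessing γ M := by
  refine ⟨isRegular_succ (h0.1.le.trans (le_ciSup Cardinal.bddAbove_of_small 0)), ?_⟩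
  intro θ hθ hθ2
  obtain ⟨M, h1, h2, h3, h4, h5⟩ := main_H hμ h0 hsc θ hθ hθ2
  exact ⟨M, h1, h2, h3, h4, fun γ hγ => h5 γ (h2 ▸ hγ)⟩

end Pool.Agent.Results.MP_e276f9_lc.GuessingOnlyAtSucc
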